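import Pool.Agent.Lib.MP_bc213e_ag.OW.F.SpA
import Pool.Agent.Lib.MP_bc213e_ag.OW.A.Eff

/-! From degrees on curves of `X` to the chart form. -/

namespace Pool.Agent.Lib.MP_bc213e_ag.OW

open Pool.Agent.Lib.MP_bc213e_ag.Hyp Pool.Agent.Lib.MP_bc213e_ag.KBB WithZero Filter

variable {K κ : Type} [Field K] [Algebra ℂ K] {N : ℕ} {x : Fin N → Kˣ} {L : Prm x →₀ ℤ}

/-- Sketch: let `S : Sp E.x' E.g' y γ` and `c` be given. `C = locAt _ q` and `ρ` come from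
`exists_hom` (a point by `Loc.isPoint`, `E.loc`), `f₀ = (g' (e k₀))⁻¹`,
`u v = g' (e k₀) / g' (e (c v))`. This lies in `C`: by `E.cart` a product with a power of
`x' (e k₀) / x' (e k)` lies in the chart `e k`, and that quotient is a unit of `C`. For a place `v`
take `O = locAt _ p` with `p` from `centre`, `f = (g' (e (c v)))⁻¹` (`Emb.locEq`, `loc_locAt`).
`ρ (u v) = (γ (c v))⁻¹`, so the summands agree (`ord_inv`). -/
theorem Emb.cn (E : Emb L κ) (h : IsNef L) : CN E.x' E.g' := by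
  rintro F κ' _ _ _ y γ ⟨S⟩ htr c hc
  obtain ⟨q, _, ρ, h1, h2, h3, h4⟩ := S.exists_hom
  have hu : ∀ k, (E.g' (S.e S.k₀) : K) / E.g' (S.e k) ∈ locAt (chart E.x' (S.e S.k₀)) q := by
    intro k
    obtain ⟨n, hn⟩ := E.cart (S.e S.k₀) (S.e k)
    have h5 := mul_mem (h4 k hn)
      (pow_mem (h4 S.k₀ (Algebra.subset_adjoin ⟨S.e k, rfl⟩)) n)
    rwa [mul_assoc, ← mul_pow, div_mul_div_cancel₀ (Units.ne_zero _), div_self (Units.ne_zero _),
      one_pow, mul_one] at h5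
  have hγ : ∀ k, ρ ⟨_, hu k⟩ = (γ k : F)⁻¹ := fun k => by
    refine eq_inv_of_mul_eq_one_left ?_
    rw [(h2 _).2, ← S.ρ_g k, ← S.ρ_mul _ (h2 ⟨_, hu k⟩).1 _ (S.g_mem k),
      div_mul_div_cancel₀ (Units.ne_zero _), div_self (Units.ne_zero _), S.ρ_one]
  refine h _ F ρ _ ((E.loc _).isPoint q) h1 htr ⟨(E.g' (S.e S.k₀))⁻¹, fun v => ⟨_, hu (c v)⟩,
    E.locEq _ (loc_locAt q), fun v hv => ?_, ?_⟩
  · obtain ⟨a1, p, _, a2⟩ := S.centre hv.2 (hc v hv)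
    have a3 : ∀ b, b ∉ p → 1 ≤ v (S.ρ b) := fun b hb => not_lt.1 (mt (a2 b).2 hb)
    refine ⟨locAt _ p, (E.g' (S.e (c v)))⁻¹, (E.loc _).isPoint p, ?_, ?_,
      E.locEq _ (loc_locAt p), ?_⟩
    · rintro z ⟨b, hb, hz⟩
      have b0 : S.ρ b ≠ 0 := fun e => by simpa [e] using a3 b hb
      have h5 := mul_mem (h3 _ (h4 _ b.2) b0) (h4 _ hz)
      rwa [inv_mul_cancel_left₀ fun e => b0 (by rw [e, map_zero])] at h5
    · rintro r ⟨b, hb, hz⟩
      have h5 := a1 _ hz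
      rw [S.ρ_mul _ (S.le _ _ b.2) _ (h2 r).1, map_mul, ← (h2 r).2] at h5
      exact (le_mul_of_one_le_left' (a3 b hb)).trans h5
    · rw [Units.val_inv_eq_inv_val, Units.val_inv_eq_inv_val, inv_div_inv]
  · simp only [hγ, ord_inv]
    simp only [ord, neg_neg]

end Pool.Agent.Lib.MP_bc213e_ag.OW
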