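import Pool.Agent.Lib.MP_bc213e_ag.OW.B.Emb
import Pool.Agent.Lib.MP_bc213e_ag.OW.C.Main
import Pool.Agent.Lib.MP_bc213e_ag.OW.E.Main
import Pool.Agent.Lib.MP_bc213e_ag.OW.F.Link

/-! The part of the dictionary that both theorems use. -/

namespace Pool.Agent.Lib.MP_bc213e_ag.OW

open Pool.Agent.Lib.MP_bc213e_ag.Hyp Pool.Agent.Lib.MP_bc213e_ag.KBB WithZero Filter

variable {K κ : Type} [Field K] [Algebra ℂ K] {N : ℕ} {x : Fin (N + 1) → Kˣ} {L : Prm x →₀ ℤ}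

theorem Emb.nef [Fintype κ] (E : Emb L κ) (frac : ∀ i, IsFractionRing (chart x i) K)
    (h : IsNef L) : Nef E.x' E.g' :=
  kleiman E.x' E.g' E.k₀ E.one (E.gen frac) E.cart (E.cn h)

theorem Emb.span_eq (E : Emb L κ) (t a : ℕ) :
    Module.finrank ℂ (Tw (t • L) (E.k * a)) =
      Module.finrank ℂ (Submodule.span ℂ {s | Sec E.x' E.g' t a s}) := by
  rw [← E.finrank_eq]
  exact congrArg (fun U : Submodule ℂ K => Module.finrank ℂ U)
    (Submodule.span_eq (SecS E.x' E.g' t a)).symm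

theorem Emb.hilb (E : Emb L κ)
    (normal : ∀ i, IsFractionRing (chart x i) K ∧ IsIntegrallyClosed (chart x i)) :
    ∃ p : ℕ → Polynomial ℚ, (∀ t, (p t).eval 0 = (chi (Sect (t • L)) : ℚ)) ∧
      ∀ t, ∀ᶠ a : ℕ in atTop,
        (Module.finrank ℂ (Tw (t • L) (E.k * a)) : ℚ) = (p t).eval (a : ℚ) := by
  choose p h0 h1 using fun t : ℕ => cech_hilb x normal (t • L)
  refine ⟨fun t => (p t).comp (Polynomial.C (E.k : ℚ) * Polynomial.X), fun t => ?_, fun t => ?_⟩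
  · rw [Polynomial.eval_comp, ← h0]
    simp
  · have h2 : Tendsto (fun a : ℕ => E.k * a) atTop atTop :=
      tendsto_atTop_mono (fun a => Nat.le_mul_of_pos_left a E.kpos) tendsto_id
    filter_upwards [h2.eventually (h1 t)] with a ha
    rw [ha, Polynomial.eval_comp]
    simp

theorem concl_of_growth {ι : Type} {x : ι → Kˣ} {L : Prm x →₀ ℤ} {ν : ℕ}
    (h : ∃ δ : ℚ, 0 < δ ∧ ∃ᶠ t : ℕ in atTop,
      δ * (t : ℚ) ^ ν ≤ Module.finrank ℂ (Sect (t • L) ∅)) :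
    ∃ t : ℕ, 0 < t ∧ ∃ f : Kˣ, ∀ w : Prm x, 0 ≤ ord w.1 (f : K) + t * L w := by
  obtain ⟨δ, hδ, h⟩ := h
  obtain ⟨t, h1, h2⟩ := (h.and_eventually (eventually_gt_atTop 0)).exists
  refine ⟨t, h2, qeff_of_finrank ?_⟩
  have h3 : (0 : ℚ) < δ * (t : ℚ) ^ ν := mul_pos hδ (pow_pos (Nat.cast_pos.2 h2) ν)
  exact_mod_cast h3.trans_le h1

end Pool.Agent.Lib.MP_bc213e_ag.OW
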