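import Pool.Agent.Lib.MP_bc213e_ag.KBF.Link

/-! Polynomials in two variables. -/

namespace Pool.Agent.Lib.MP_bc213e_ag.OW

open Filter Polynomial

/-- Sketch: a polynomial of degree `> ν` is not `O (t ^ ν)`
(`Polynomial.tendsto_abs_atTop`-type lemmas for `q / (X + 1) ^ ν`, or leading terms). -/
theorem natDegree_le_of_bound {q : ℚ[X]} {ν : ℕ} {C : ℚ}
    (h : ∀ t : ℕ, |q.eval (t : ℚ)| ≤ C * ((t : ℚ) + 1) ^ ν) : q.natDegree ≤ ν := by
  by_contra hn
  have hm : ((X + 1 : ℚ[X]) ^ ν).Monic := (monic_X_add_C 1).pow ν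
  have hd : ((X + 1 : ℚ[X]) ^ ν).degree < q.degree := by
    refine degree_lt_degree ?_
    have : (X + 1 : ℚ[X]).natDegree = 1 := natDegree_X_add_C 1
    rw [natDegree_pow, this]
    omega
  have h1 := (abs_div_tendsto_atTop_atTop_of_degree_gt _ _ hd hm.ne_zero).comp
    tendsto_natCast_atTop_atTop
  obtain ⟨t, ht⟩ := (h1.eventually_gt_atTop C).exists
  have h2 : (0 : ℚ) < ((t : ℚ) + 1) ^ ν := by positivity
  simp only [Function.comp, eval_pow, eval_add, eval_X, eval_one, abs_div, abs_of_pos h2] at ht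
  exact (h t).not_gt ((lt_div_iff₀ h2).1 ht)

/-- Sketch: otherwise the degree is `< ν` (or `q = 0`) and `q t / t ^ ν → 0`. -/
theorem coeff_ne_of_freq {q : ℚ[X]} {ν : ℕ} (hq : q.natDegree ≤ ν) {c : ℚ} (hc : 0 < c)
    (h : ∃ᶠ t : ℕ in atTop, c * (t : ℚ) ^ ν ≤ |q.eval (t : ℚ)|) : q.coeff ν ≠ 0 := by
  intro h0
  have hd : q.degree < (X ^ ν : ℚ[X]).degree := by
    rw [degree_X_pow, degree_lt_iff_coeff_zero]
    intro m hm
    rcases hm.eq_or_lt with rfl | hm
    · exact h0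
    · exact coeff_eq_zero_of_natDegree_lt (hq.trans_lt hm)
  have h1 := ((div_tendsto_atTop_zero_of_degree_lt _ _ hd).comp
    (tendsto_natCast_atTop_atTop (R := ℚ))).abs
  rw [abs_zero] at h1
  obtain ⟨t, h2, h3, h4⟩ :=
    (h.and_eventually ((h1.eventually_lt_const hc).and (eventually_gt_atTop 0))).exists
  have h5 : (0 : ℚ) < (t : ℚ) ^ ν := by positivity
  simp only [Function.comp, eval_pow, eval_X, abs_div, abs_of_pos h5] at h3
  exact h2.not_gt ((div_lt_iff₀ h5).1 h3)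

/-- Sketch: `Q = MvPolynomial.aeval ![X, C X] P`. For `a ≥ a₀` the polynomial
`Q.map (evalRingHom a)` has degree `≤ ν`, so the coefficients of `Q` in degree `> ν` vanish at
infinitely many `a`. For the last part use `Q.map (evalRingHom 0)`. -/
theorem exists_two (P : MvPolynomial (Fin 2) ℚ) {ν a₀ : ℕ}
    (h : ∀ a : ℕ, a₀ ≤ a → ∃ C : ℚ, ∀ t : ℕ,
      |MvPolynomial.eval ![(t : ℚ), (a : ℚ)] P| ≤ C * ((t : ℚ) + 1) ^ ν) {c : ℚ} (hc : 0 < c)
    (h0 : ∃ᶠ t : ℕ in atTop, c * (t : ℚ) ^ ν ≤ |MvPolynomial.eval ![(t : ℚ), 0] P|) :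
    ∃ Q : ℚ[X][X], (∀ t a : ℚ, (Q.eval (C t)).eval a = MvPolynomial.eval ![t, a] P) ∧
      Q.natDegree ≤ ν ∧ (Q.coeff ν).eval 0 ≠ 0 := by
  let Q : ℚ[X][X] := MvPolynomial.aeval ![X, C X] P
  have hQ : ∀ t a : ℚ, (Q.eval (C t)).eval a = MvPolynomial.eval ![t, a] P := fun t a => by
    simp only [Q]
    clear h h0 Q
    induction P using MvPolynomial.induction_on with
    | C r => simp
    | add p q hp hq => simp_all
    | mul_X p i hp => fin_cases i <;> simp_all
  have hm : ∀ t a : ℚ, (Q.map (evalRingHom a)).eval t = MvPolynomial.eval ![t, a] P := fun t a => by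
    rw [map_evalRingHom_eval, ← hQ]
  have hd : Q.natDegree ≤ ν := by
    refine natDegree_le_iff_coeff_eq_zero.2 fun N hN => ?_
    refine eq_zero_of_infinite_isRoot _ (((Set.Ici_infinite a₀).image
      (Nat.cast_injective (R := ℚ)).injOn).mono ?_)
    rintro _ ⟨a, ha, rfl⟩
    obtain ⟨B, hB⟩ := h a ha
    have h1 := natDegree_le_of_bound (q := Q.map (evalRingHom a)) (C := B) fun t => by
      rw [hm]; exact hB t
    simpa using coeff_eq_zero_of_natDegree_lt (h1.trans_lt hN)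
  refine ⟨Q, hQ, hd, ?_⟩
  simpa using coeff_ne_of_freq (q := Q.map (evalRingHom 0)) (natDegree_map_le.trans hd) hc
    (by simpa only [hm] using h0)

end Pool.Agent.Lib.MP_bc213e_ag.OW
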