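import Pool.Agent.Lib.MP_bc213e_ag.KBF.Link
import Pool.Agent.Lib.MP_bc213e_ag.KBA.Main
import Pool.Agent.Lib.MP_bc213e_ag.KBG.NoNu

/-!
Nonvanishing for a nef divisor `L` whose Euler characteristic grows at least like `t ^ (n - 2)`:
its Kodaira dimension is at least `n - 2`. The hypothesis `psef` says that `a L + b H - m K` is
effective with `b / m` arbitrarily small; for a log canonical divisor `L = m (K + Δ)` take `a = 1`,
`b = 0`, `σ = 1`.
-/

namespace Pool.Agent.Lib.MP_bc213e_ag.OW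

open Pool.Agent.Lib.MP_bc213e_ag Pool.Agent.Lib.MP_bc213e_ag.Hyp Filter

theorem euler_chart {K ι : Type} [Field K] [Algebra ℂ K] [Fintype ι] {n : ℕ} (hn : 2 ≤ n)
    (x g : ι → Kˣ) (i₀ : ι) (one : x i₀ = 1)
    (normal : ∀ i, IsFractionRing (chart x i) K ∧ IsIntegrallyClosed (chart x i))
    (τ : Fin n → K) (hτ : IsTranscendenceBasis ℂ τ) (D : Fin n → Derivation ℂ K K)
    (hD : ∀ a b, D a (τ b) = if a = b then 1 else 0)
    (cartier : ∀ i j, ∃ e : ℕ, (g i : K) / g j * ((x i : K) / x j) ^ e ∈ chart x j)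
    (psef : ∀ T : ℕ, ∃ (m a b : ℕ) (σ : Kˣ), T * b < m ∧
      ∀ i w, PrimeDiv (chart x i) w → ¬ LD D m w (g i ^ a * x i ^ b / σ) (m + 1))
    (nef : ∀ t : ℕ, ∃ N : ℕ, 0 < N ∧ Free x g (N * t) N)
    (h : ℕ → ℕ → ℕ)
    (hh : ∀ t a, h t a = Module.finrank ℂ (Submodule.span ℂ {s | Sec x g t a s}))
    (p : ℕ → Polynomial ℚ) (hilbert : ∀ t, ∀ᶠ a : ℕ in atTop, (h t a : ℚ) = (p t).eval (a : ℚ))
    (c : ℚ) (hc : 0 < c) (chi : ∃ᶠ t : ℕ in atTop, c * (t : ℚ) ^ (n - 2) ≤ (p t).eval 0) :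
    ∃ δ : ℚ, 0 < δ ∧ ∃ᶠ t : ℕ in atTop, δ * (t : ℚ) ^ (n - 2) ≤ h t 0 := by
  have e : ∀ t a : ℕ, h t a = Module.finrank ℂ (KBB.SecS x g t a) := fun t a => by
    rw [hh]
    exact congrArg (fun U : Submodule ℂ K => Module.finrank ℂ U)
      (Submodule.span_eq (KBB.SecS x g t a))
  have : Nonempty ι := ⟨i₀⟩
  obtain ⟨P, a₀, hP⟩ := KBB.uniform x g cartier nef
  have chi' := KBF.link_chi (h := h) (fun t a ha => by rw [e]; exact (hP t a ha).2) hilbert chi
  simp only [e]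
  by_contra small
  exact small (KBA.main hn x g i₀ one (fun i => (normal i).1) (fun i => (normal i).2) τ hτ D hD
    cartier psef nef P a₀ hP (KBA.nu_of_small hn x g i₀ one (fun i => (normal i).1)
      (fun i => (normal i).2) τ hτ cartier nef P a₀ hP hc chi' small) hc chi')

end Pool.Agent.Lib.MP_bc213e_ag.OW
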