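import Pool.Agent.Lib.MP_bc213e_ag.OW.F.Common
import Pool.Agent.Lib.MP_bc213e_ag.OW.F.OldE
import Pool.Agent.Lib.MP_bc213e_ag.DC.KJac

/-! The theorem on the Euler characteristic of order `n - 2`. -/

namespace Pool.Agent.Lib.MP_bc213e_ag.OW

open Pool.Agent.Lib.MP_bc213e_ag.Hyp Pool.Agent.Lib.MP_bc213e_ag.KBB WithZero Filter

theorem euler_growth {K : Type} [Field K] [Algebra ℂ K] {N n m : ℕ} (hn : 2 ≤ n) (hm : 0 < m)
    (x : Fin (N + 1) → Kˣ)
    (normal : ∀ i, IsFractionRing (chart x i) K ∧ IsIntegrallyClosed (chart x i))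
    (τ : Fin n → K) (hτ : IsTranscendenceBasis ℂ τ) (D : Fin n → Derivation ℂ K K)
    (hD : ∀ a b, D a (τ b) = if a = b then 1 else 0)
    (KX : Prm x →₀ ℤ) (canonical : IsCanonical D KX) (Δ : Prm x →₀ ℚ) (effective : 0 ≤ Δ)
    (L : Prm x →₀ ℤ) (hL : ∀ w, (L w : ℚ) = m * (KX w + Δ w))
    (cartier : IsCartier L) (nef : IsNef L) (c : ℚ) (hc : 0 < c)
    (euler : ∃ᶠ t : ℕ in atTop, c * (t : ℚ) ^ (n - 2) ≤ chi (Sect (t • L))) :
    ∃ δ : ℚ, 0 < δ ∧ ∃ᶠ t : ℕ in atTop,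
      δ * (t : ℚ) ^ (n - 2) ≤ Module.finrank ℂ (Sect (t • L) ∅) := by
  obtain ⟨κ, _, ⟨E⟩⟩ := exists_emb normal cartier
  obtain ⟨p, h0, h1⟩ := E.hilb normal
  have h2 := euler_chart hn E.x' E.g' E.k₀ E.one (E.normal normal) τ hτ D hD E.cart
    (fun T => ⟨m, 1, 0, 1, by simpa using hm, fun a w hw => by
      have h3 := DC.eff_of_can (E.g' a).ne_zero
        (E.effective normal canonical effective hL a) w hw
      simpa using h3⟩)
    (E.nef (fun i => (normal i).1) nef)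
    (fun t a => Module.finrank ℂ (Tw (t • L) (E.k * a))) E.span_eq p h1 c hc
    (by simpa only [h0] using euler)
  have h9 : ∀ t : ℕ, Module.finrank ℂ (Tw (t • L) (E.k * 0)) =
      Module.finrank ℂ (Sect (t • L) ∅) := fun t => by rw [mul_zero, tw_zero]
  simpa only [h9] using h2

end Pool.Agent.Lib.MP_bc213e_ag.OW
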