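import Pool.Agent.Lib.MP_bc213e_ag.OW.F.Euler

/-! The theorem on the Euler characteristic of order `n - 2` with a nef part. -/

namespace Pool.Agent.Lib.MP_bc213e_ag.OW

open Pool.Agent.Lib.MP_bc213e_ag.Hyp Pool.Agent.Lib.MP_bc213e_ag.KBB WithZero Filter

variable {K κ : Type} [Field K] [Algebra ℂ K] {N : ℕ} {x : Fin (N + 1) → Kˣ}

/-- A nef Cartier divisor is a limit of effective ones. -/
theorem nef_sec (normal : ∀ i, IsFractionRing (chart x i) K ∧ IsIntegrallyClosed (chart x i))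
    {M : Prm x →₀ ℤ} (cartier : IsCartier M) (nef : IsNef M) (T : ℕ) :
    ∃ (a b : ℕ) (s : K), T * b < a ∧ s ≠ 0 ∧ s ∈ Tw (a • M) b := by
  obtain ⟨κ, _, ⟨E⟩⟩ := exists_emb normal cartier
  obtain ⟨r, hr, h⟩ := E.nef (fun i => (normal i).1) nef (T * E.k + 1)
  have h1 : ∃ s : K, s ≠ 0 ∧ Sec E.x' E.g' ((r * (T * E.k + 1) : ℕ) : ℤ) r s := by
    by_contra h2
    push Not at h2
    have h3 := h E.k₀
    have h4 : {s : K | Sec E.x' E.g' ((r : ℤ) * ((T * E.k + 1 : ℕ) : ℤ)) r s} ⊆ {0} := by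
      intro s hs
      by_contra h5
      exact h2 s h5 (by rw [Nat.cast_mul]; exact hs)
    have h5 := Submodule.span_mono (R := chart E.x' E.k₀) h4 h3
    rw [Submodule.span_zero_singleton, Submodule.mem_bot] at h5
    exact mul_ne_zero (zpow_ne_zero _ (Units.ne_zero _)) (pow_ne_zero _ (Units.ne_zero _)) h5
  obtain ⟨s, s0, hs⟩ := h1
  refine ⟨r * (T * E.k + 1), E.k * r, s * (E.u : K) ^ r, by nlinarith,
    mul_ne_zero s0 (pow_ne_zero _ E.u.ne_zero), (E.sec _ r s).1 hs⟩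

theorem Emb.hyp_le {L : Prm x →₀ ℤ} (E : Emb L κ) (c : κ) (w : ZVal K)
    (hw : PrimeDiv (chart E.x' c) w) :
    w ((x (E.j c) : K) ^ E.k / E.u) ≤ w (E.x' c : K) := by
  have h1 : Sec E.x' E.g' ((0 : ℕ) : ℤ) 1 ((x (E.j c) : K) ^ E.k / E.u) := by
    refine (E.sec 0 1 _).2 fun i v hv => ?_
    rw [pow_one, div_mul_cancel₀ _ E.u.ne_zero, mul_one, ← div_pow, zero_smul, Finsupp.zero_apply,
      exp_zero]
    exact (hv i (Finset.mem_singleton_self i)).2.1 _ (pow_mem (Basic_mem x i _) _)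
  have h2 := hw.2.1 _ (h1 c)
  rwa [Nat.cast_zero, zpow_zero, one_mul, pow_one, map_div₀, div_le_one₀ (Basic_pos w _)] at h2

theorem euler_growth_nef {n m : ℕ} (hn : 2 ≤ n) (hm : 0 < m) (x : Fin (N + 1) → Kˣ)
    (normal : ∀ i, IsFractionRing (chart x i) K ∧ IsIntegrallyClosed (chart x i))
    (τ : Fin n → K) (hτ : IsTranscendenceBasis ℂ τ) (D : Fin n → Derivation ℂ K K)
    (hD : ∀ a b, D a (τ b) = if a = b then 1 else 0)
    (KX : Prm x →₀ ℤ) (canonical : IsCanonical D KX) (Δ : Prm x →₀ ℚ) (effective : 0 ≤ Δ)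
    (M : Prm x →₀ ℤ) (cartierM : IsCartier M) (nefM : IsNef M)
    (L : Prm x →₀ ℤ) (hL : ∀ w, (L w : ℚ) = m * (KX w + Δ w) + M w)
    (cartier : IsCartier L) (nef : IsNef L) (c : ℚ) (hc : 0 < c)
    (euler : ∃ᶠ t : ℕ in atTop, c * (t : ℚ) ^ (n - 2) ≤ chi (Sect (t • L))) :
    ∃ δ : ℚ, 0 < δ ∧ ∃ᶠ t : ℕ in atTop,
      δ * (t : ℚ) ^ (n - 2) ≤ Module.finrank ℂ (Sect (t • L) ∅) := by
  obtain ⟨κ, _, ⟨E⟩⟩ := exists_emb normal cartier
  obtain ⟨p, h0, h1⟩ := E.hilb normal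
  have psef : ∀ T : ℕ, ∃ (m a b : ℕ) (σ : Kˣ), T * b < m ∧ ∀ i w, PrimeDiv (chart E.x' i) w →
      ¬ LD D m w (E.g' i ^ a * E.x' i ^ b / σ) (m + 1) := by
    intro T
    obtain ⟨a, b, s, h2, s0, hs⟩ := nef_sec normal cartierM nefM T
    have k0 := E.kpos
    refine ⟨m * (E.k * a), E.k * a, b, Units.mk0 s s0 ^ E.k / E.u ^ b, ?_, fun i w hw => ?_⟩
    · exact h2.trans_le ((Nat.le_mul_of_pos_left a k0).trans (Nat.le_mul_of_pos_left _ hm))
    have := (E.normal normal i).1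
    have := (E.normal normal i).2
    have := chart_noeth E.x' i
    have g0 : (E.g' i : K) ^ (E.k * a) * (E.x' i : K) ^ b /
        ((Units.mk0 s s0 ^ E.k / E.u ^ b : Kˣ) : K) ≠ 0 :=
      div_ne_zero (mul_ne_zero (pow_ne_zero _ (Units.ne_zero _)) (pow_ne_zero _ (Units.ne_zero _)))
        (Units.ne_zero _)
    have h3 := DC.eff_of_can (D := D) (m := m * (E.k * a)) g0 (fun u hu => hartogs fun v hv => ?_)
      w hw
    · simpa using h3
    let z : Prm x := ⟨v, E.j i, (E.loc i).primeDiv hv⟩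
    have e1 : v (E.g' i : K) = exp (L z) := E.eqn i z hv
    have e2 : v (jac D u) ≤ exp (KX z) := canonical.le z fun b => hv.2.1 _ (hu b)
    have e3 : (m : ℤ) * KX z + M z ≤ L z := by
      have d : (0 : ℚ) ≤ Δ z := effective z
      have : ((m : ℤ) * KX z + M z : ℚ) ≤ L z := by
        rw [hL z]
        push_cast
        nlinarith [mul_nonneg (Nat.cast_nonneg (α := ℚ) m) d]
      exact_mod_cast this
    have e4 : v (s / (x (E.j i) : K) ^ b) ≤ exp ((a • M) z) :=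
      hs (E.j i) z fun l hl => by
        rw [Finset.mem_singleton.1 hl]
        exact (E.loc i).primeDiv hv
    have e5 := E.hyp_le i v hv
    have e6 : ((Units.mk0 s s0 ^ E.k / E.u ^ b : Kˣ) : K) =
        (s / (x (E.j i) : K) ^ b) ^ E.k * ((x (E.j i) : K) ^ E.k / E.u) ^ b := by
      have := (x (E.j i)).ne_zero
      have := E.u.ne_zero
      rw [Units.val_div_eq_div_val, Units.val_pow_eq_pow_val, Units.val_pow_eq_pow_val,
        Units.val_mk0, div_pow, div_pow, ← pow_mul, ← pow_mul, mul_comm b E.k]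
      field_simp
    rw [div_div_eq_mul_div, map_div₀, div_le_one₀ (by
      rw [map_mul, map_pow, map_pow]
      exact mul_pos (pow_pos (Basic_pos v _) _) (pow_pos (Basic_pos v _) _)), e6]
    simp only [map_mul, map_pow]
    rw [← mul_assoc]
    refine mul_le_mul' ?_ (pow_le_pow_left₀ zero_le (by simpa only [map_div₀, map_pow] using e5) b)
    refine (mul_le_mul' (pow_le_pow_left₀ zero_le e2 _) (pow_le_pow_left₀ zero_le e4 _)).trans ?_
    rw [e1, ← exp_nsmul, ← exp_nsmul, ← exp_nsmul, ← exp_add, exp_le_exp, Finsupp.smul_apply]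
    simp only [nsmul_eq_mul]
    push_cast
    nlinarith [mul_le_mul_of_nonneg_left e3 (Int.natCast_nonneg (E.k * a)), Nat.cast_mul (α := ℤ) E.k a]
  have h2 := euler_chart hn E.x' E.g' E.k₀ E.one (E.normal normal) τ hτ D hD E.cart psef
    (E.nef (fun i => (normal i).1) nef)
    (fun t a => Module.finrank ℂ (Tw (t • L) (E.k * a))) E.span_eq p h1 c hc
    (by simpa only [h0] using euler)
  have h9 : ∀ t : ℕ, Module.finrank ℂ (Tw (t • L) (E.k * 0)) =
      Module.finrank ℂ (Sect (t • L) ∅) := fun t => by rw [mul_zero, tw_zero]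
  simpa only [h9] using h2

end Pool.Agent.Lib.MP_bc213e_ag.OW
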