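import Pool.Agent.Lib.MP_bc213e_ag.DN.Main

/-!
Let `X` be a normal projective variety, `Δ ≥ 0`, `L = m (K + Δ)` nef, and let `(X, Δ)` be log smooth
and klt at all points of dimension more than `ν + j`. Let `P (t, a) = χ (t L + a H)` have degree at
most `ν` in `t`. If the coefficient of `t ^ ν` is not divisible by `a ^ (j + 1)`, then a multiple of
`L` is trivial on the generic fibre of a rational map to a variety of dimension at most `ν + j`: it
has a generator `θ` at the centre of every valuation of `K` over `k`.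
-/

namespace Pool.Agent.Lib.MP_bc213e_ag.OW

open Pool.Agent.Lib.MP_bc213e_ag Pool.Agent.Lib.MP_bc213e_ag.Hyp Filter

theorem fibres_chart {K ι : Type} [Field K] [Algebra ℂ K] [Fintype ι] {n m ν j : ℕ} (mpos : 0 < m)
    (x g : ι → Kˣ) (i₀ : ι) (one : x i₀ = 1)
    (normal : ∀ i, IsFractionRing (chart x i) K ∧ IsIntegrallyClosed (chart x i))
    (τ : Fin n → K) (hτ : IsTranscendenceBasis ℂ τ) (D : Fin n → Derivation ℂ K K)
    (hD : ∀ a b, D a (τ b) = if a = b then 1 else 0)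
    (cartier : ∀ i l, ∃ e : ℕ, (g i : K) / g l * ((x i : K) / x l) ^ e ∈ chart x l)
    (effective : ∀ i (u : Fin n → K), (∀ b, u b ∈ chart x i) → jac D u ^ m / g i ∈ chart x i)
    (klt : ∀ i (p : Ideal (chart x i)), p.IsPrime →
      ((ν + j : ℕ) : Cardinal) < Algebra.trdeg ℂ (chart x i ⧸ p) → SncKlt D m (g i) p)
    (nef : ∀ t : ℕ, ∃ N : ℕ, 0 < N ∧ Free x g (N * t) N)
    (h : ℕ → ℕ → ℕ)
    (hh : ∀ t a, h t a = Module.finrank ℂ (Submodule.span ℂ {s | Sec x g t a s}))
    (P : Polynomial (Polynomial ℚ))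
    (hilbert : ∀ t : ℕ, ∀ᶠ a : ℕ in atTop,
      (h t a : ℚ) = (P.eval (Polynomial.C (t : ℚ))).eval (a : ℚ))
    (deg : P.natDegree ≤ ν) (order : ¬ Polynomial.X ^ (j + 1) ∣ P.coeff ν) :
    ∃ (k : IntermediateField ℂ K) (N : ℕ) (θ : K), Algebra.trdeg ℂ k ≤ (ν + j : ℕ) ∧ 0 < N ∧
      ∀ i (O : ValuationSubring K), (∀ c ∈ k, c ∈ O) → (∀ r ∈ chart x i, r ∈ O) →
        O.valuation θ = O.valuation ((g i : K) ^ N) := by
  have e : ∀ t a : ℕ, h t a = Module.finrank ℂ (KBB.SecS x g t a) := fun t a => by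
    rw [hh]
    exact congrArg (fun U : Submodule ℂ K => Module.finrank ℂ U)
      (Submodule.span_eq (KBB.SecS x g t a))
  simp only [e] at hilbert
  exact DD.Su.torsion (M := RatFunc K) ⟨x, g, i₀, one, fun i => (normal i).1,
    fun i => (normal i).2, τ, hτ, D, hD, m, mpos.ne', effective, ν + j, klt, cartier, nef,
    RatFunc.X, RatFunc.transcendental_X, RatFunc.adjoin_X⟩ rfl deg order hilbert

end Pool.Agent.Lib.MP_bc213e_ag.OW
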