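import Pool.Agent.Lib.MP_bc213e_ag.DN.Main

/-!
Let `X` be a normal projective variety, `Δ ≥ 0`, `L = m (K + Δ)` nef, and let `(X, Δ)` be log smooth
and klt at all points of dimension more than `ν`. If `P (t, a) = χ (t L + a H)` has degree at most
`ν` in `t` and `χ (t L)` has degree `ν`, then the sections of `t L` grow like `t ^ ν`.
-/

namespace Pool.Agent.Lib.MP_bc213e_ag.OW

open Pool.Agent.Lib.MP_bc213e_ag Pool.Agent.Lib.MP_bc213e_ag.Hyp Filter

theorem todd_chart {K ι : Type} [Field K] [Algebra ℂ K] [Fintype ι] {n m ν : ℕ} (mpos : 0 < m)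
    (x g : ι → Kˣ) (i₀ : ι) (one : x i₀ = 1)
    (normal : ∀ i, IsFractionRing (chart x i) K ∧ IsIntegrallyClosed (chart x i))
    (τ : Fin n → K) (hτ : IsTranscendenceBasis ℂ τ) (D : Fin n → Derivation ℂ K K)
    (hD : ∀ a b, D a (τ b) = if a = b then 1 else 0)
    (cartier : ∀ i l, ∃ e : ℕ, (g i : K) / g l * ((x i : K) / x l) ^ e ∈ chart x l)
    (effective : ∀ i (u : Fin n → K), (∀ b, u b ∈ chart x i) → jac D u ^ m / g i ∈ chart x i)
    (klt : ∀ i (p : Ideal (chart x i)), p.IsPrime →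
      (ν : Cardinal) < Algebra.trdeg ℂ (chart x i ⧸ p) → SncKlt D m (g i) p)
    (nef : ∀ t : ℕ, ∃ N : ℕ, 0 < N ∧ Free x g (N * t) N)
    (h : ℕ → ℕ → ℕ)
    (hh : ∀ t a, h t a = Module.finrank ℂ (Submodule.span ℂ {s | Sec x g t a s}))
    (P : Polynomial (Polynomial ℚ))
    (hilbert : ∀ t : ℕ, ∀ᶠ a : ℕ in atTop,
      (h t a : ℚ) = (P.eval (Polynomial.C (t : ℚ))).eval (a : ℚ))
    (deg : P.natDegree ≤ ν) (chi : (P.coeff ν).eval 0 ≠ 0) :
    ∃ δ : ℚ, 0 < δ ∧ ∃ᶠ t : ℕ in atTop, δ * (t : ℚ) ^ ν ≤ h t 0 := by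
  have e : ∀ t a : ℕ, h t a = Module.finrank ℂ (KBB.SecS x g t a) := fun t a => by
    rw [hh]
    exact congrArg (fun U : Submodule ℂ K => Module.finrank ℂ U)
      (Submodule.span_eq (KBB.SecS x g t a))
  simp only [e] at hilbert ⊢
  exact DD.Su.growth (M := RatFunc K) ⟨x, g, i₀, one, fun i => (normal i).1,
    fun i => (normal i).2, τ, hτ, D, hD, m, mpos.ne', effective, ν, klt, cartier, nef, RatFunc.X,
    RatFunc.transcendental_X, RatFunc.adjoin_X⟩ rfl deg chi hilbert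

end Pool.Agent.Lib.MP_bc213e_ag.OW
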