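import Pool.Agent.Lib.MP_bc213e_ag.OW.A.Loc

/-! The local ring of a restriction and the centres of places. -/

namespace Pool.Agent.Lib.MP_bc213e_ag.OW

open Pool.Agent.Lib.MP_bc213e_ag.Hyp Pool.Agent.Lib.MP_bc213e_ag.KBB WithZero Filter

variable {K ι F κ : Type} [Field K] [Algebra ℂ K] [Field F] [Algebra ℂ F] {x g : ι → Kˣ}
  {y γ : κ → Fˣ}

namespace Sp

variable (S : Sp x g y γ)

theorem spa_div {a b : K} (ha : a ∈ S.O) (hb : b ∈ S.O) (h : S.ρ b ≠ 0) :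
    a / b ∈ S.O ∧ S.ρ (a / b) = S.ρ a / S.ρ b := by
  have h0 : b ≠ 0 := fun e => h (by rw [e, map_zero])
  have h1 : a / b ∈ S.O := by
    rw [div_eq_mul_inv]
    exact S.O.mul_mem ha (S.inv b hb h)
  refine ⟨h1, eq_div_of_mul_eq h ?_⟩
  rw [← S.ρ_mul _ h1 _ hb, div_mul_cancel₀ _ h0]

theorem spa_alg (c : ℂ) : S.ρ (algebraMap ℂ K c) = algebraMap ℂ F c := by
  rw [Algebra.algebraMap_eq_smul_one, map_smul, S.ρ_one, Algebra.algebraMap_eq_smul_one]

/-- The restriction of `ρ` to a subalgebra of `O`. -/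
def spaHom (B : Subalgebra ℂ K) (hB : ∀ r ∈ B, r ∈ S.O) : B →ₐ[ℂ] F where
  toFun r := S.ρ r
  map_one' := S.ρ_one
  map_mul' a b := S.ρ_mul _ (hB _ a.2) _ (hB _ b.2)
  map_zero' := S.ρ.map_zero
  map_add' a b := S.ρ.map_add _ _
  commutes' := S.spa_alg

theorem spa_mem (x : ι → Kˣ) (i j : ι) : (x j : K) / x i ∈ chart x i :=
  Algebra.subset_adjoin ⟨j, rfl⟩

theorem spa_eq (x : ι → Kˣ) (i j l : ι) :
    (x j : K) / x i = (x j : K) / x l / ((x i : K) / x l) :=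
  (div_div_div_cancel_right₀ (x l).ne_zero _ _).symm

/-- Sketch: `q` is the kernel of `ρ` on the chart. The image of `locAt _ q` is a subfield that
contains the `y k`, so it is `F` by `gen`. For the last part, `x (e k) / x (e k₀)` is a unit of
`locAt _ q`. -/
theorem exists_hom : ∃ (q : Ideal (chart x (S.e S.k₀))) (_ : q.IsPrime)
    (ρ : locAt (chart x (S.e S.k₀)) q →ₐ[ℂ] F), Function.Surjective ρ ∧
      (∀ r : locAt (chart x (S.e S.k₀)) q, (r : K) ∈ S.O ∧ ρ r = S.ρ r) ∧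
      (∀ r ∈ locAt (chart x (S.e S.k₀)) q, S.ρ r ≠ 0 → r⁻¹ ∈ locAt (chart x (S.e S.k₀)) q) ∧
      ∀ k, chart x (S.e k) ≤ locAt (chart x (S.e S.k₀)) q := by
  let φ := S.spaHom _ (S.le S.k₀)
  haveI hq : (RingHom.ker φ).IsPrime := RingHom.ker_isPrime φ
  have hO : ∀ r ∈ locAt (chart x (S.e S.k₀)) (RingHom.ker φ), r ∈ S.O := by
    rintro r ⟨b, hb, h⟩
    rw [← mul_div_cancel_left₀ r (inv_mem_locAt hb).1]
    exact (S.spa_div (S.le _ _ h) (S.le _ _ b.2) hb).1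
  have hi : ∀ r ∈ locAt (chart x (S.e S.k₀)) (RingHom.ker φ), S.ρ r ≠ 0 →
      r⁻¹ ∈ locAt (chart x (S.e S.k₀)) (RingHom.ker φ) := by
    intro r hr h0
    have h1 : r ≠ 0 := fun e => h0 (by rw [e, map_zero])
    obtain ⟨b, hb, h⟩ := id hr
    refine ⟨⟨_, h⟩, fun e => ?_, ?_⟩
    · have e' : S.ρ (b * r) = 0 := e
      rw [S.ρ_mul _ (S.le _ _ b.2) _ (hO r hr)] at e'
      exact (mul_eq_zero.1 e').elim hb h0
    · change (b : K) * r * r⁻¹ ∈ _
      rw [mul_inv_cancel_right₀ h1]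
      exact b.2
  have hl := (loc_locAt (RingHom.ker φ)).1
  refine ⟨RingHom.ker φ, hq, S.spaHom _ hO, fun z => ?_, fun r => ⟨hO _ r.2, rfl⟩, hi,
    fun k => Algebra.adjoin_le ?_⟩
  · let T : IntermediateField ℂ F := (S.spaHom _ hO).range.toIntermediateField (by
      rintro _ ⟨r, rfl⟩
      by_cases h0 : S.ρ r = 0
      · refine ⟨0, ?_⟩
        change S.ρ 0 = (S.ρ r)⁻¹
        rw [h0, inv_zero, map_zero]
      · refine ⟨⟨_, hi _ r.2 h0⟩, ?_⟩
        change S.ρ (r : K)⁻¹ = (S.ρ r)⁻¹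
        rw [← one_div, (S.spa_div S.O.one_mem (hO _ r.2) h0).2, S.ρ_one, one_div])
    have : (⊤ : IntermediateField ℂ F) ≤ T := by
      rw [← S.gen, IntermediateField.adjoin_le_iff]
      rintro _ ⟨k, rfl⟩
      exact ⟨⟨_, hl (spa_mem x _ (S.e k))⟩, S.ρ_x k⟩
    exact this IntermediateField.mem_top
  · rintro _ ⟨j, rfl⟩
    beta_reduce
    rw [spa_eq x _ j (S.e S.k₀), div_eq_mul_inv]
    exact mul_mem (hl (spa_mem x _ j))
      (hi _ (hl (spa_mem x _ _)) (by rw [S.ρ_x]; exact (y k).ne_zero))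

/-- Sketch: `ρ (x i / x (e k))` is `y j / y k` or zero; `Algebra.adjoin_induction`. -/
theorem centre {v : ZVal F} (hv : ∀ c : ℂ, v (algebraMap ℂ F c) ≤ 1) {k : κ}
    (hk : ∀ j, v (y j : F) ≤ v (y k : F)) : (∀ r ∈ chart x (S.e k), v (S.ρ r) ≤ 1) ∧
      ∃ (p : Ideal (chart x (S.e k))) (_ : p.IsPrime), ∀ r, r ∈ p ↔ v (S.ρ r) < 1 := by
  have h : ∀ r ∈ chart x (S.e k), v (S.ρ r) ≤ 1 := by
    intro r hr
    induction hr using Algebra.adjoin_induction with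
    | mem r hr =>
      obtain ⟨i, rfl⟩ := hr
      beta_reduce
      rw [spa_eq x _ i (S.e S.k₀), (S.spa_div (S.le _ _ (spa_mem x _ _)) (S.le _ _ (spa_mem x _ _))
        (by rw [S.ρ_x]; exact (y k).ne_zero)).2, S.ρ_x]
      by_cases hi : i ∈ Set.range S.e
      · obtain ⟨j, rfl⟩ := hi
        rw [S.ρ_x, map_div₀]
        exact div_le_one_of_le₀ (hk j) zero_le
      · rw [S.ρ_x0 i hi, zero_div, map_zero]
        exact zero_le
    | algebraMap c => exact (S.spa_alg c).symm ▸ hv c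
    | add a b _ _ ha hb => exact S.ρ.map_add a b ▸ v.map_add_le ha hb
    | mul a b ha' hb' ha hb =>
      rw [S.ρ_mul _ (S.le _ _ ha') _ (S.le _ _ hb'), map_mul]
      exact mul_le_one' ha hb
  have hm : ∀ a b : chart x (S.e k), v (S.ρ (a * b : chart x (S.e k))) = v (S.ρ a) * v (S.ρ b) :=
    fun a b => by rw [Subalgebra.coe_mul, S.ρ_mul _ (S.le _ _ a.2) _ (S.le _ _ b.2), map_mul]
  refine ⟨h, ⟨⟨⟨{r | v (S.ρ r) < 1}, fun {a b} ha hb => ?_⟩, ?_⟩, fun c r hr => ?_⟩,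
    ⟨fun e => ?_, fun {a b} hab => ?_⟩, fun _ => Iff.rfl⟩
  · change v (S.ρ (a + b : K)) < 1
    rw [map_add]
    exact v.map_add_lt ha hb
  · change v (S.ρ 0) < 1
    rw [map_zero, map_zero]
    exact zero_lt_one
  · exact (hm c r).trans_lt ((mul_le_of_le_one_left' (h _ c.2)).trans_lt hr)
  · have : v (S.ρ 1) < 1 := (Ideal.eq_top_iff_one _).1 e
    rw [S.ρ_one, map_one] at this
    exact lt_irrefl _ this
  · by_contra hn
    rw [not_or] at hn
    exact ((one_le_mul (not_lt.1 hn.1) (not_lt.1 hn.2)).trans_eq (hm a b).symm).not_gt hab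

end Sp

end Pool.Agent.Lib.MP_bc213e_ag.OW
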